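import Pool.Agent.N356.SP.DefsK
import Pool.Agent.N849.LS.KS10
import Pool.Agent.N263.LS.KS9

/-!
# Project LK (helper356), GK11 (helper394): second and third term of the binomial expansion
-/

set_option autoImplicit false

namespace Pool.Agent.N394.LK

open Finset Pool.Agent.H384R3.SPk Pool.Agent.N356.SP
open Pool.Agent.N645.LS (cosp_cont)

/-- weighted inequality between the geometric and the arithmetic mean -/
theorem amgm {k j : ℕ} (hk : 0 < k) (hj : j ≤ k) {a b : ℝ} (ha : 0 ≤ a) (hb : 0 ≤ b) :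
    a ^ (k - j) * b ^ j ≤ (((k - j : ℕ) : ℝ) * a ^ k + j * b ^ k) / k := by
  have hk0 : (0:ℝ) < k := by exact_mod_cast hk
  have h1 := Real.geom_mean_le_arith_mean2_weighted (w₁ := ((k - j : ℕ) : ℝ) / k)
    (w₂ := (j : ℝ) / k) (p₁ := a ^ k) (p₂ := b ^ k) (by positivity) (by positivity)
    (by positivity) (by positivity) (by
      rw [← add_div, Nat.cast_sub hj, sub_add_cancel, div_self hk0.ne'])
  have e1 : ∀ (x : ℝ) (i : ℕ), 0 ≤ x → (x ^ k) ^ ((i : ℝ) / k) = x ^ i := by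
    intro x i hx
    rw [← Real.rpow_natCast x k, ← Real.rpow_mul hx, mul_div_cancel₀ _ hk0.ne',
      Real.rpow_natCast]
  rw [e1 a _ ha, e1 b _ hb] at h1
  calc a ^ (k - j) * b ^ j ≤ _ := h1
    _ = _ := by ring

theorem lam_nonneg (j : ℕ) : 0 ≤ lam j := by
  unfold lam
  positivity

theorem pK_nonneg (k : ℕ) {μ t : ℝ} (hμ : 0 ≤ μ) (ht : 0 ≤ t) : 0 ≤ pK k μ t := by
  unfold pK
  refine sum_nonneg fun j _ => ?_
  have := lam_nonneg j
  rw [smul_eq_mul]
  positivity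

theorem pK_cont (k : ℕ) {μ t : ℝ → ℝ} (hμ : Continuous μ) (ht : Continuous t) :
    Continuous fun x => pK k (μ x) (t x) := by
  unfold pK
  simp only [smul_eq_mul]
  exact continuous_finsetSum _ fun j _ =>
    continuous_const.mul ((ht.pow j).mul (hμ.pow (k - 2 * j)))

section

variable {m : ℕ} {C : Finset (ZMod m)} {θ : ZMod m → ZMod m → ℝ} {g f : ℤ →₀ ℝ}

theorem muf_nonneg (x : ℝ) : 0 ≤ muf C f x := by
  unfold muf
  positivity

theorem wf_nonneg (x : ℝ) : 0 ≤ wf C θ f x := by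
  unfold wf
  positivity

/-- GK11: the second and third term -/
theorem T23
    (pwK : ∀ {k : ℕ}, 6 ≤ k → ∀ {μ w G t q : ℝ}, 0 ≤ μ → 0 ≤ w → 0 ≤ G → 0 ≤ t → 0 ≤ q →
      q ^ k = lam k * pK k μ (16 / 81 * w) →
      ((2 * k).choose 2 : ℝ) * t ^ 2 * (G ^ (2 * k - 2) * μ) +
          ((2 * k).choose 3 : ℝ) * t ^ 3 * (G ^ (2 * k - 3) * √(μ * w)) ≤
        k * cK k * t ^ 2 * (G ^ (2 * k - 2) * q) +
          9 / 100 * (k * cK k * t ^ 2) ^ 2 * (G ^ (2 * k - 4) * q ^ 2))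
    (pK_int : ∀ {m : ℕ} {C : Finset (ZMod m)} {θ : ZMod m → ZMod m → ℝ} {f : ℤ →₀ ℝ},
      GoodC C θ → ∀ {k : ℕ}, OrdC k C → (∀ n, 0 ≤ f n) →
      (∀ n ∈ f.support, ((n : ℤ) : ZMod m) ∈ C) →
      lam k * (∫ x in (0:ℝ)..1, pK k (muf C f x) (16 / 81 * wf C θ f x)) ≤ Mc k f)
    {k : ℕ} (hk : 6 ≤ k) (h : GoodC C θ) (ho : OrdC k C) (hg0 : ∀ n, 0 ≤ g n)
    (hf0 : ∀ n, 0 ≤ f n) (hg : ∀ n ∈ g.support, ((n : ℤ) : ZMod m) = 0)
    (hf : ∀ n ∈ f.support, ((n : ℤ) : ZMod m) ∈ C) (hG : Mc k g ≤ ((2 * k).choose k : ℝ))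
    (hF : Mc k f ≤ ((2 * k).choose k : ℝ)) {t : ℝ} (ht : 0 ≤ t) :
    ((2 * k).choose 2 : ℝ) * t ^ 2 * AJ (2 * k - 2) 2 g f +
        ((2 * k).choose 3 : ℝ) * t ^ 3 * AJ (2 * k - 3) 3 g f ≤
      ((2 * k).choose k : ℝ) * (k * cK k * t ^ 2 + 9 / 100 * (k * cK k * t ^ 2) ^ 2) := by
  have hk0 : (0:ℝ) < k := by exact_mod_cast (by omega : 0 < k)
  have hμc : Continuous (muf C f) := Pool.Agent.N263.LS.muf_cont
  have hwc : Continuous (wf C θ f) := Pool.Agent.N263.LS.wf_cont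
  have hgc : Continuous (cosp g) := cosp_cont g
  obtain ⟨T, Tc, T2, hT⟩ := Pool.Agent.N849.LS.AJ3_eq h hf0 hf
  rw [Pool.Agent.N849.LS.AJ2_eq h.neg hg0 hf0 hg hf, hT g hg0 hg]
  -- the function `q`
  obtain ⟨P, hP⟩ : ∃ P : ℝ → ℝ, P = fun x => lam k * pK k (muf C f x) (16 / 81 * wf C θ f x) :=
    ⟨_, rfl⟩
  have hPc : Continuous P := by
    rw [hP]
    exact continuous_const.mul (pK_cont k hμc (continuous_const.mul hwc))
  have hP0 : ∀ x, 0 ≤ P x := by
    intro x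
    rw [hP]
    exact mul_nonneg (lam_nonneg k) (pK_nonneg k (muf_nonneg x)
      (mul_nonneg (by norm_num) (wf_nonneg x)))
  obtain ⟨q, hq⟩ : ∃ q : ℝ → ℝ, q = fun x => P x ^ ((1:ℝ) / k) := ⟨_, rfl⟩
  have hqc : Continuous q := by
    rw [hq]
    exact hPc.rpow_const fun x => Or.inr (by positivity)
  have hq0 : ∀ x, 0 ≤ q x := fun x => by
    rw [hq]
    exact Real.rpow_nonneg (hP0 x) _
  have hqk : ∀ x, q x ^ k = P x := fun x => by
    rw [hq]
    show (P x ^ ((1:ℝ) / k)) ^ k = P x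
    rw [← Real.rpow_natCast, ← Real.rpow_mul (hP0 x), one_div, inv_mul_cancel₀ hk0.ne',
      Real.rpow_one]
  have hPi : ∫ x in (0:ℝ)..1, P x ≤ ((2 * k).choose k : ℝ) := by
    rw [hP, intervalIntegral.integral_const_mul]
    exact (pK_int h ho hf0 hf).trans hF
  have hGi : ∫ x in (0:ℝ)..1, cosp g x ^ (2 * k) ≤ ((2 * k).choose k : ℝ) := hG
  have hc0 : 0 ≤ cK k := by
    unfold cK
    refine Real.rpow_nonneg (div_nonneg (pow_nonneg ?_ _) (by positivity)) _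
    have : (6:ℝ) ≤ k := by exact_mod_cast hk
    linarith
  obtain ⟨X, hX⟩ : ∃ X : ℝ, X = k * cK k * t ^ 2 := ⟨_, rfl⟩
  have hX0 : 0 ≤ X := by rw [hX]; positivity
  rw [← hX]
  obtain ⟨Λ, hΛ⟩ : ∃ Λ : ℝ, Λ = ((2 * k).choose k : ℝ) := ⟨_, rfl⟩
  rw [← hΛ] at hPi hGi ⊢
  -- pointwise
  have hpt : ∀ x, ((2 * k).choose 2 : ℝ) * t ^ 2 * (cosp g x ^ (2 * k - 2) * muf C f x) +
      ((2 * k).choose 3 : ℝ) * t ^ 3 * (cosp g x ^ (2 * k - 3) * T x) ≤
      (X * ((k - 1) / k) + 9 / 100 * X ^ 2 * ((k - 2) / k)) * cosp g x ^ (2 * k) +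
        (X * (1 / k) + 9 / 100 * X ^ 2 * (2 / k)) * P x := by
    intro x
    have hG0 : 0 ≤ |cosp g x| := abs_nonneg _
    have h1 := pwK hk (muf_nonneg (C := C) (f := f) x) (wf_nonneg (C := C) (θ := θ) (f := f) x) hG0
      ht (hq0 x) (by rw [hqk x, hP])
    rw [← hX] at h1
    have e2 : |cosp g x| ^ (2 * k - 2) = cosp g x ^ (2 * k - 2) :=
      Even.pow_abs ⟨k - 1, by omega⟩ _
    have e4 : |cosp g x| ^ (2 * k - 4) = cosp g x ^ (2 * k - 4) :=
      Even.pow_abs ⟨k - 2, by omega⟩ _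
    have e0 : |cosp g x| ^ (2 * k) = cosp g x ^ (2 * k) := Even.pow_abs ⟨k, by omega⟩ _
    have h2 : cosp g x ^ (2 * k - 3) * T x ≤
        |cosp g x| ^ (2 * k - 3) * √(muf C f x * wf C θ f x) := by
      refine (le_abs_self _).trans ?_
      rw [abs_mul, abs_pow]
      exact mul_le_mul_of_nonneg_left (Real.abs_le_sqrt (T2 x)) (by positivity)
    have h3 : ((2 * k).choose 3 : ℝ) * t ^ 3 * (cosp g x ^ (2 * k - 3) * T x) ≤
        ((2 * k).choose 3 : ℝ) * t ^ 3 *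
          (|cosp g x| ^ (2 * k - 3) * √(muf C f x * wf C θ f x)) :=
      mul_le_mul_of_nonneg_left h2 (by positivity)
    rw [e2] at h1
    have h4 : |cosp g x| ^ (2 * k - 2) * q x ≤
        ((k - 1) / k) * cosp g x ^ (2 * k) + 1 / k * P x := by
      have h5 := amgm (k := k) (j := 1) (by omega) (by omega) (sq_nonneg (cosp g x)) (hq0 x)
      rw [pow_one, hqk x, ← pow_mul, ← pow_mul, Nat.cast_sub (by omega : 1 ≤ k), Nat.cast_one,
        show 2 * (k - 1) = 2 * k - 2 by omega] at h5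
      rw [e2]
      calc _ ≤ _ := h5
        _ = _ := by ring
    have h6 : |cosp g x| ^ (2 * k - 4) * q x ^ 2 ≤
        ((k - 2) / k) * cosp g x ^ (2 * k) + 2 / k * P x := by
      have h5 := amgm (k := k) (j := 2) (by omega) (by omega) (sq_nonneg (cosp g x)) (hq0 x)
      rw [hqk x, ← pow_mul, ← pow_mul, Nat.cast_sub (by omega : 2 ≤ k), Nat.cast_ofNat,
        show 2 * (k - 2) = 2 * k - 4 by omega] at h5
      rw [e4]
      calc _ ≤ _ := h5
        _ = _ := by ring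
    have h7 := mul_le_mul_of_nonneg_left h4 hX0
    have h8 := mul_le_mul_of_nonneg_left h6 (by positivity : 0 ≤ 9 / 100 * X ^ 2)
    rw [e2] at h7
    calc _ ≤ _ := add_le_add_right h3 _
      _ ≤ _ := h1
      _ ≤ _ := add_le_add h7 h8
      _ = _ := by ring
  have hm := intervalIntegral.integral_mono (μ := MeasureTheory.volume) zero_le_one
    (Continuous.intervalIntegrable (by fun_prop) 0 1)
    (Continuous.intervalIntegrable (by fun_prop) 0 1) hpt
  rw [intervalIntegral.integral_add (Continuous.intervalIntegrable (by fun_prop) 0 1)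
      (Continuous.intervalIntegrable (by fun_prop) 0 1),
    intervalIntegral.integral_add (Continuous.intervalIntegrable (by fun_prop) 0 1)
      (Continuous.intervalIntegrable (by fun_prop) 0 1),
    intervalIntegral.integral_const_mul, intervalIntegral.integral_const_mul,
    intervalIntegral.integral_const_mul, intervalIntegral.integral_const_mul] at hm
  refine hm.trans ?_
  have hk6 : (6:ℝ) ≤ k := by exact_mod_cast hk
  have a1 : 0 ≤ X * ((k - 1) / k) + 9 / 100 * X ^ 2 * (((k:ℝ) - 2) / k) := by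
    have b1 : (0:ℝ) ≤ (k - 1) / k := div_nonneg (by linarith) hk0.le
    have b2 : (0:ℝ) ≤ (k - 2) / k := div_nonneg (by linarith) hk0.le
    positivity
  have a2 : 0 ≤ X * (1 / k) + 9 / 100 * X ^ 2 * (2 / (k:ℝ)) := by positivity
  have a3 := mul_le_mul_of_nonneg_left hGi a1
  have a4 := mul_le_mul_of_nonneg_left hPi a2
  refine (add_le_add a3 a4).trans (le_of_eq ?_)
  field_simp
  ring

end

end Pool.Agent.N394.LK
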